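import Pool.Agent.LibBE37F.Defs
import Pool.Agent.LibBE36T.T14
import Pool.Agent.LibBE37F.Sm
import Pool.Agent.LibBE37N.E3
import Pool.Agent.LibBE36W.WB
import Pool.Agent.LibBE36W.WC
import Pool.Agent.LibBE36W.WD
import Pool.Agent.LibBE33.A3
import Pool.Agent.LibBE33.E1
import Pool.Agent.LibBE88.V13

/-! Weyl's law with the remainder `O (y ^ (1 - c / log log y))`: from the second moments in the blocks
to almost every metric (architect helper33). -/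

open MeasureTheory Set Filter Topology BGS
open scoped ContDiff unitInterval

namespace W37

variable [F37.Sq]

open W36

open BE33 (IsB aL a0 aL_amp AmpS Nc Qf exists_IsB)
open F37
open B35 (Dt)
open Pool.BGR (PM upI)

variable {Γ : Type} [Group Γ] [MulAction Γ Pl] {D : Set Pl}

/-- Input (F1): second moments at fixed `τ`. -/
def Sec (Γ : Type) [Group Γ] [MulAction Γ Pl] (D : Set Pl) (P : Dt) (p : Pr) (κ κ1 : ℝ)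
    (ν : ℕ → Measure I) : Prop :=
  ∀ M : ℕ → ℝ, ∃ k0 : ℕ, ∀ k ≥ k0, ∀ a : ℝ → ℂ, Am M (Lm κ1 k) a → ∀ τ : ℝ, 2 ^ k / 2 ≤ τ →
    τ ≤ 5 * 2 ^ k →
      Measurable (fun ξ => (Bs P p Γ D κ k).indicator (fun ξ => Sb P p Γ D κ1 k a τ ξ) ξ) ∧
      ∫⁻ ξ, ENNReal.ofReal ((Bs P p Γ D κ k).indicator (fun ξ => Sb P p Γ D κ1 k a τ ξ) ξ ^ 2)
        ∂(Pm ν) ≤ ENNReal.ofReal ((2 : ℝ) ^ ((k : ℝ) / 2))

/-- Input (F2): the trace formula for one metric. -/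
def Tra (D : Set Pl) (P : Dt) (p : Pr) (κ1 : ℝ) (ξ : Dir → I) (m' : Mt Γ D) : Prop :=
  ∀ M : ℕ → ℝ, ∃ k0 : ℕ, ∀ k ≥ k0, ∀ a : ℝ → ℂ, Am M (Lm κ1 k) a → ∀ τ : ℝ, 2 ^ k / 2 ≤ τ →
    τ ≤ 5 * 2 ^ k → |B36.Qs m' a τ - Sb P p Γ D κ1 k a τ ξ| ≤ 1

theorem WE_am {M : ℕ → ℝ} {ρ : ℝ} {a : ℝ → ℂ} (h : AmpS a ρ M) : Am M ρ a :=
  ⟨h.smooth, h.conj, h.supp, h.bound⟩

/-- The size of the longest lengths. -/
theorem WE_Lm {κ1 : ℝ} (h : 0 < κ1) : (∀ j : ℕ, Real.exp (κ1 * Sq.g j) ≤ Lm κ1 j) ∧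
    Tendsto (Lm κ1) atTop atTop ∧ ∀ᶠ j : ℕ in atTop, Lm κ1 j ^ 16 ≤ 2 ^ j := by
  refine ⟨g_Lm h, ?_, ?_⟩
  · refine tendsto_atTop_mono (g_Lm h) (Real.tendsto_exp_atTop.comp ?_)
    exact N37.g_tendsto.const_mul_atTop h
  · filter_upwards [Lm_sub (κ1 * 16) (A := 1) (d := 1) one_pos] with j hj
    rw [one_mul, one_mul, Real.rpow_natCast] at hj
    refine le_trans (le_of_eq ?_) hj
    rw [← Lm_pow, ← Real.rpow_natCast]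
    norm_num

/-- The systole of one metric is positive. -/
theorem WE_sys (hX : Surface Γ D) (hO : BR.Ori Γ) (m' : Mt Γ D) : ∃ n : ℕ, ∀ γ : Γ, γ ≠ 1 →
    ∀ x : Pl, 1 / ((n : ℝ) + 1) < BGM.ds m'.1.1 x (γ • x) := by
  have hm := BR.hm_of_Mt m'
  obtain ⟨a, b, h⟩ := BE.CF1 hX hO hm
  obtain ⟨c, hc, hc'⟩ := BE.ds_low h
  obtain ⟨n, hn⟩ := exists_nat_one_div_lt hc
  refine ⟨n, fun γ hγ x => ?_⟩
  rw [BE33.A3_ds hX hm]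
  have h1 := hc' () 0 (by simp) x γ hγ
  rw [BE.mm_s1] at h1
  exact hn.trans_le h1

/-- Almost every metric. The parameters of the mollification and the exponent of the longest lengths
may depend on the bound `1 / (i + 1)` of the curvature. -/
theorem WE_main (hX : Surface Γ D) (hO : BR.Ori Γ) {P : Dt} {p : ℕ → Pr} {ν : ℕ → Measure I}
    [IsProbabilityMeasure (Pm ν)] {κ1 : ℕ → ℝ} (hκ1 : ∀ i, 0 < κ1 i)
    (h1 : ∀ i : ℕ, Sec Γ D P (p i) (1 / ((i : ℝ) + 1)) (κ1 i) ν)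
    (h2 : ∀ (i : ℕ) (ξ : Dir → I) (m' : Mt Γ D), m'.1.1 = P.X Γ D ξ →
      (∀ᶠ k : ℕ in atTop, ξ ∈ Bs P (p i) Γ D (1 / ((i : ℝ) + 1)) k) →
        Tra D P (p i) (κ1 i) ξ m')
    (h3 : ∀ ξ : Dir → I, (∀ z, curv (P.X Γ D ξ) z < 0) → ∃ i : ℕ, ∀ᶠ k : ℕ in atTop,
      ξ ∈ Bs P (p i) Γ D (1 / ((i : ℝ) + 1)) k) :
    ∀ᵐ ξ ∂Pm ν, ∀ m' : Mt Γ D, m'.1.1 = P.X Γ D ξ → ∃ κ2 C : ℝ, 0 < κ2 ∧ 0 < C ∧
      ∀ᶠ j : ℕ in atTop, ∀ τ : ℝ, 2 ^ j ≤ τ → τ ≤ 2 * 2 ^ j →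
        |Nc (FG33.lam m') τ - τ ^ 2 / (4 * Real.pi)| ≤ C * 2 ^ j / Lm κ2 j := by
  obtain ⟨b, hb⟩ := exists_IsB
  have hae : ∀ᵐ ξ ∂Pm ν, ∀ i n : ℕ, ∀ᶠ j : ℕ in atTop, ∀ t : ℕ,
      (t : ℝ) ≤ 4 * 2 ^ j * Lm (κ1 i) j ^ 3 →
      |(Bs P (p i) Γ D (1 / ((i : ℝ) + 1)) j).indicator (fun ξ => Sb P (p i) Γ D (κ1 i) j
        (aL b (1 / ((n : ℝ) + 1)) (Lm (κ1 i) j)) (2 ^ j / 2 + t / Lm (κ1 i) j ^ 3) ξ) ξ| ≤
        2 ^ j / Lm (κ1 i) j := by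
    refine ae_all_iff.2 fun i => ae_all_iff.2 fun n => ?_
    obtain ⟨hL1, hL2, hL3⟩ := WE_Lm (hκ1 i)
    have hl : (0 : ℝ) < 1 / ((n : ℝ) + 1) := by positivity
    obtain ⟨M, hM⟩ := aL_amp hb hl
    obtain ⟨k0, hk0⟩ := h1 i M
    refine WC_grid (Pm ν) (F := fun j τ ξ => (Bs P (p i) Γ D (1 / ((i : ℝ) + 1)) j).indicator
      (fun ξ => Sb P (p i) Γ D (κ1 i) j (aL b (1 / ((n : ℝ) + 1)) (Lm (κ1 i) j)) τ ξ) ξ)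
      (hL2.eventually_ge_atTop 1) hL3 ?_
    filter_upwards [eventually_ge_atTop k0, hL2.eventually_ge_atTop (1 / ((n : ℝ) + 1))]
      with j hj hj2 τ hτ1 hτ2
    exact hk0 j hj _ (WE_am (hM _ hj2)) τ hτ1 hτ2
  filter_upwards [hae] with ξ hξ m' hm'
  have hneg : ∀ z, curv (P.X Γ D ξ) z < 0 := by
    intro z
    rw [← hm']
    exact m'.2.neg z
  obtain ⟨i, hi⟩ := h3 ξ hneg
  obtain ⟨hL1, hL2, hL3⟩ := WE_Lm (hκ1 i)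
  obtain ⟨n, hn⟩ := WE_sys hX hO m'
  have hl : (0 : ℝ) < 1 / ((n : ℝ) + 1) := by positivity
  obtain ⟨M, hM⟩ := aL_amp hb hl
  obtain ⟨k0, hk0⟩ := h2 i ξ m' hm' hi M
  obtain ⟨e, he⟩ := TR.exists_Bas hX m'
  have hLev := TR.Lev_of he
  have hA1 := BE33.A3_h1 hX hO m' one_pos (μ := m'.1.1) (fun z => (one_smul ℝ _).symm) hb hl hn
  have hA1' : ∃ C : ℝ, ∀ τ : ℝ, 1 ≤ τ →
      |Qf (FG33.lam m') 1 (a0 b (1 / ((n : ℝ) + 1))) τ| ≤ C / √τ := by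
    obtain ⟨C, hC⟩ := hA1
    refine ⟨C, fun τ hτ => ?_⟩
    have := hC τ hτ
    simpa using this
  have h4 : ∀ᶠ j : ℕ in atTop, Lm (κ1 i) j ^ 4 ≤ 2 ^ j := by
    filter_upwards [hL3, hL2.eventually_ge_atTop 1] with j hj hj1
    exact (pow_le_pow_right₀ hj1 (by norm_num)).trans hj
  obtain ⟨C, hC, hW⟩ := weylL hb hLev one_pos hl hA1' hL2 h4 ⟨2, by
    filter_upwards [hξ i n, hi, eventually_ge_atTop k0,
      hL2.eventually_ge_atTop (1 / ((n : ℝ) + 1)), hL2.eventually_ge_atTop 1, h4]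
      with j hj1 hj2 hj3 hj4 hj5 hj6 t ht
    have e1 := hj1 t ht
    rw [Set.indicator_of_mem hj2] at e1
    have hL0 : 0 < Lm (κ1 i) j := by linarith
    have hP0 : (0 : ℝ) < 2 ^ j := by positivity
    have ht2 : (t : ℝ) / Lm (κ1 i) j ^ 3 ≤ 4 * 2 ^ j := by
      rw [div_le_iff₀ (by positivity)]
      exact ht
    have ht0 : (0 : ℝ) ≤ t / Lm (κ1 i) j ^ 3 := by positivity
    have e2 := hk0 j hj3 _ (WE_am (hM _ hj4)) (2 ^ j / 2 + t / Lm (κ1 i) j ^ 3) (by linarith)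
      (by linarith)
    have e3 : (1 : ℝ) ≤ 2 ^ j / Lm (κ1 i) j := by
      rw [le_div_iff₀ hL0, one_mul]
      exact (le_self_pow₀ hj5 (by norm_num)).trans hj6
    have e4 : Qf (FG33.lam m') 1 (aL b (1 / ((n : ℝ) + 1)) (Lm (κ1 i) j))
        (2 ^ j / 2 + t / Lm (κ1 i) j ^ 3) = B36.Qs m' (aL b (1 / ((n : ℝ) + 1)) (Lm (κ1 i) j))
        (2 ^ j / 2 + t / Lm (κ1 i) j ^ 3) := rfl
    rw [e4]
    have e5 := abs_add_le (B36.Qs m' (aL b (1 / ((n : ℝ) + 1)) (Lm (κ1 i) j))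
      (2 ^ j / 2 + t / Lm (κ1 i) j ^ 3) - Sb P (p i) Γ D (κ1 i) j (aL b (1 / ((n : ℝ) + 1)) (Lm (κ1 i) j))
      (2 ^ j / 2 + t / Lm (κ1 i) j ^ 3) ξ) (Sb P (p i) Γ D (κ1 i) j (aL b (1 / ((n : ℝ) + 1)) (Lm (κ1 i) j))
      (2 ^ j / 2 + t / Lm (κ1 i) j ^ 3) ξ)
    rw [sub_add_cancel] at e5
    have e6 : (2 : ℝ) * 2 ^ j / Lm (κ1 i) j = 2 ^ j / Lm (κ1 i) j + 2 ^ j / Lm (κ1 i) j := by ring
    rw [e6]
    linarith⟩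
  refine ⟨κ1 i, C, hκ1 i, hC, ?_⟩
  filter_upwards [hW] with j hj τ h5 h6
  have := hj τ h5 h6
  simpa using this

end W37
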