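import Pool.Agent.LibBE37Z.Z5
import Pool.Agent.LibBE37F.BF5
import Pool.Agent.LibBE37F.QX
import Pool.Agent.LibBE37F.GL4

/-! BE36: the inputs of Weyl's law from the block theorems. -/

open MeasureTheory Set Filter Topology
open scoped ContDiff unitInterval

namespace Z37

variable [F37.Sq]

open BGS BR B35 F37
open Pool.BGR (PM)

variable {Γ : Type} [Group Γ] [MulAction Γ Pl] {D : Set Pl} {P : Dt} {κ : ℝ} {ν : ℕ → Measure I}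

theorem tra_of (hP : F37.Ok Γ D P) (hκ : 0 < κ) : ∃ δ0 : ℝ, 0 < δ0 ∧ ∀ p : Pr, p.Ok → p.δ ≤ δ0 →
    ∀ κ1 : ℝ, 0 < κ1 → ∀ (ξ : Dir → I) (m' : Mt Γ D), m'.1.1 = P.X Γ D ξ →
      (∀ᶠ k : ℕ in atTop, ξ ∈ Bs P p Γ D κ k) → W37.Tra D P p κ1 ξ m' := by
  obtain ⟨δ0, hδ0, H⟩ := Qs_X hP hκ (u := 1 / 2) (v := 5) (by norm_num) (by norm_num)
  refine ⟨δ0, hδ0, fun p hp hpδ κ1 hκ1 ξ m' hm' hξ M => ?_⟩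
  obtain ⟨C, k1, H⟩ := H p hp hpδ κ1 hκ1 M
  obtain ⟨k2, hk2⟩ := eventually_atTop.1 hξ
  obtain ⟨k3, hk3⟩ := eventually_atTop.1
    ((tendsto_pow_atTop_atTop_of_one_lt (by norm_num : (1 : ℝ) < 2)).eventually_ge_atTop C)
  refine ⟨max k1 (max k2 k3), fun k hk a ha τ h1 h2 => ?_⟩
  simp only [ge_iff_le, max_le_iff] at hk
  refine (H k hk.1 ξ (hk2 k hk.2.1) m' hm' a ha τ (by linarith) (by linarith)).trans ?_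
  rw [div_le_one (by positivity)]
  exact hk3 k hk.2.2

theorem sec_of (hP : F37.Ok Γ D P) (hν : Law ν) (hκ : 0 < κ) : ∃ δ0 : ℝ, 0 < δ0 ∧
    ∀ p : Pr, p.Ok → p.δ ≤ δ0 → ∃ κ0 : ℝ, 0 < κ0 ∧ ∀ κ1 : ℝ, 0 < κ1 → κ1 ≤ κ0 →
      W37.Sec Γ D P p κ κ1 ν := by
  obtain ⟨δ0, hδ0, H⟩ := sec hP hν hκ (u := 1 / 2) (v := 5) (by norm_num) (by norm_num)
  refine ⟨δ0, hδ0, fun p hp hpδ => ?_⟩
  obtain ⟨κ0, hκ0, H⟩ := H p hp hpδ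
  refine ⟨κ0, hκ0, fun κ1 hκ1 hle M => ?_⟩
  obtain ⟨k0, H⟩ := H κ1 hκ1 hle M
  exact ⟨k0, fun k hk a ha τ h1 h2 => H k hk a ha τ (by linarith) h2⟩

/-- The inputs of the theorem. -/
def Inp (Γ : Type) [Group Γ] [MulAction Γ Pl] (D : Set Pl) : Prop :=
  ∀ P : Dt, F37.Ok Γ D P → ∀ ν : ℕ → Measure I, F37.Law ν → ∀ κ : ℝ, 0 < κ →
    ∃ p : F37.Pr, p.Ok ∧ ∃ κ1 : ℝ, 0 < κ1 ∧ W37.Sec Γ D P p κ κ1 ν ∧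
      ∀ (ξ : Dir → I) (m' : Mt Γ D), m'.1.1 = P.X Γ D ξ →
        (∀ᶠ k : ℕ in atTop, ξ ∈ F37.Bs P p Γ D κ k) → W37.Tra D P p κ1 ξ m'

theorem inp (Γ : Type) [Group Γ] [MulAction Γ Pl] (D : Set Pl) : Inp Γ D := by
  intro P hP ν hν κ hκ
  obtain ⟨δ1, hδ1, H1⟩ := tra_of hP hκ
  obtain ⟨δ2, hδ2, H2⟩ := sec_of hP hν hκ
  obtain ⟨p, hp, hpδ⟩ := exists_Pr (lt_min hδ1 hδ2)
  obtain ⟨κ0, hκ0, H2⟩ := H2 p hp (hpδ.trans (min_le_right _ _))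
  exact ⟨p, hp, κ0, hκ0, H2 κ0 hκ0 le_rfl,
    H1 p hp (hpδ.trans (min_le_left _ _)) κ0 hκ0⟩

end Z37
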