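import Pool.Agent.LibBE37F.N1a

/-! The coefficients `s * cn R`. -/

open MeasureTheory Set Filter Topology
open scoped ContDiff unitInterval

namespace Z37

variable [F37.Sq]

open BGS
open Pool.BGR (PM)

theorem cn_Cs {s : ℝ} (h0 : 0 < s) (h1 : s ≤ 1) : Cs fun R => s * F37.cn R := F37.cn_Cs h0 h1

theorem cn_Cs' : Cs F37.cn := by
  have h := cn_Cs (s := 1) one_pos le_rfl
  have h1 : (fun R => 1 * F37.cn R) = F37.cn := by
    funext R
    rw [one_mul]
  rwa [h1] at h

end Z37
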