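import Pool.Agent.LibBE37F.Defs

/-! BE36: a continuous map of the unit interval with a given law. -/

open MeasureTheory Set Filter Topology
open scoped ContDiff unitInterval

namespace Z37

variable [F37.Sq]

open BGS
open Pool.BGR (PM)

/-- A continuous density, positive on the open interval, is the law of a continuous map. -/
theorem Z2_gen {ρ : ℝ → ℝ} (hc : Continuous ρ) (hpos : ∀ v, 0 < v → v < 1 → 0 < ρ v)
    (hint : ∫ v in (0 : ℝ)..1, ρ v = 1) : ∃ u : I → I, Continuous u ∧
    ∀ h : ℝ → ℝ, Continuous h → ∫ t : I, h (u t) = ∫ v in (0 : ℝ)..1, h v * ρ v := by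
  set G : ℝ → ℝ := fun v => ∫ w in (0 : ℝ)..v, ρ w with hG
  have hGd : ∀ v, HasDerivAt G (ρ v) v := fun v =>
    intervalIntegral.integral_hasDerivAt_right (hc.intervalIntegrable _ _)
      hc.stronglyMeasurable.stronglyMeasurableAtFilter hc.continuousAt
  have hGc : Continuous G := continuous_iff_continuousAt.2 fun v => (hGd v).continuousAt
  have hG0 : G 0 = 0 := intervalIntegral.integral_same
  have hG1 : G 1 = 1 := hint
  have hmono : StrictMonoOn G (Icc 0 1) := by
    apply strictMonoOn_of_deriv_pos (convex_Icc 0 1) hGc.continuousOn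
    intro x hx
    rw [interior_Icc] at hx
    rw [(hGd x).deriv]
    exact hpos x hx.1 hx.2
  have hmem : ∀ {v : ℝ}, v ∈ Icc (0 : ℝ) 1 → G v ∈ Icc (0 : ℝ) 1 := by
    intro v hv
    constructor
    · rw [← hG0]
      exact hmono.monotoneOn (left_mem_Icc.2 zero_le_one) hv hv.1
    · rw [← hG1]
      exact hmono.monotoneOn hv (right_mem_Icc.2 zero_le_one) hv.2
  let g : I → I := fun v => ⟨G v, hmem v.2⟩
  have hgc : Continuous g := Continuous.subtype_mk (hGc.comp continuous_subtype_val) _
  have hgi : Function.Injective g := by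
    intro v w h
    have h1 : G v = G w := congrArg Subtype.val h
    exact Subtype.ext (hmono.injOn v.2 w.2 h1)
  have hgs : Function.Surjective g := by
    intro t
    have h1 : (t : ℝ) ∈ Icc (G 0) (G 1) := by
      rw [hG0, hG1]
      exact t.2
    obtain ⟨v, hv, hvt⟩ := intermediate_value_Icc zero_le_one hGc.continuousOn h1
    exact ⟨⟨v, hv⟩, Subtype.ext hvt⟩
  let e : I ≃ I := Equiv.ofBijective g ⟨hgi, hgs⟩
  have hec : Continuous e := hgc
  let E : I ≃ₜ I := hec.homeoOfEquivCompactToT2
  have hE : ∀ v, E.symm (g v) = v := fun v => E.symm_apply_apply v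
  refine ⟨E.symm, E.symm.continuous, fun h hh => ?_⟩
  let F : ℝ → ℝ := fun t => h (E.symm (projIcc 0 1 zero_le_one t))
  have hF : Continuous F :=
    hh.comp (continuous_subtype_val.comp (E.symm.continuous.comp continuous_projIcc))
  have h1 : ∫ t : I, h (E.symm t) = ∫ t in (0 : ℝ)..1, F t := by
    rw [intervalIntegral.integral_of_le zero_le_one, ← integral_Icc_eq_integral_Ioc]
    rw [← integral_subtype_comap measurableSet_Icc F]
    have h2 : ∀ t : I, h (E.symm t) = F t := by
      intro t
      simp only [F]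
      rw [projIcc_val]
    simp_rw [h2]
    rfl
  rw [h1]
  have h2 := intervalIntegral.integral_comp_mul_deriv (a := 0) (b := 1) (f := G) (f' := ρ)
    (g := F) (fun x _ => hGd x) hc.continuousOn hF
  rw [hG0, hG1] at h2
  rw [← h2]
  apply intervalIntegral.integral_congr
  intro v hv
  rw [uIcc_of_le zero_le_one] at hv
  simp only [Function.comp_apply, F]
  rw [projIcc_of_mem zero_le_one (hmem hv)]
  have h3 : E.symm ⟨G v, hmem hv⟩ = ⟨v, hv⟩ := hE ⟨v, hv⟩
  rw [h3]

theorem Z2_c (M : ℕ) : 0 < ∫ v in (0 : ℝ)..1, (v * (1 - v)) ^ M := by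
  refine intervalIntegral.intervalIntegral_pos_of_pos_on ?_ (fun v hv => ?_) one_pos
  · exact (by fun_prop : Continuous fun v : ℝ => (v * (1 - v)) ^ M).intervalIntegrable _ _
  · exact pow_pos (mul_pos hv.1 (by linarith [hv.2])) _

theorem rh_cont (M : ℕ) : Continuous (F37.rh M) := by
  unfold F37.rh
  exact (by fun_prop : Continuous fun v : ℝ => (v * (1 - v)) ^ M).div_const _

theorem exists_Qt (M : ℕ) : ∃ u : I → I, F37.Qt M u := by
  obtain ⟨u, h1, h2⟩ := Z2_gen (rh_cont M) (fun v h0 h1 => by
    unfold F37.rh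
    exact div_pos (pow_pos (mul_pos h0 (by linarith)) _) (Z2_c M)) (by
    unfold F37.rh
    rw [intervalIntegral.integral_div, div_self (Z2_c M).ne'])
  exact ⟨u, h1, h2⟩

/-- The family of the maps. -/
theorem exists_u : ∃ u : ℕ → I → I, ∀ R, F37.Qt (F37.Mx R) (u R) :=
  ⟨fun R => (exists_Qt (F37.Mx R)).choose, fun R => (exists_Qt (F37.Mx R)).choose_spec⟩

end Z37
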