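import Pool.Agent.LibBE37F.Defs

/-! BE36: the law of the coefficients. -/

open MeasureTheory ProbabilityTheory Set Filter Topology
open scoped ContDiff unitInterval

namespace Z37

variable [F37.Sq]

open BGS
open Pool.BGR (PM)

/-- The measures of the coefficients. -/
noncomputable def nuU (u : ℕ → I → I) (R : ℕ) : Measure I := (volume : Measure I).map (u R)

theorem law_of_Qt {u : ℕ → I → I} (hu : ∀ R, F37.Qt (F37.Mx R) (u R)) : F37.Law (nuU u) where
  prob := fun R => Measure.isProbabilityMeasure_map (hu R).cont.measurable.aemeasurable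
  int := by
    intro R f hf
    have e1 : ∫ t : I, f t ∂(nuU u R) = ∫ t : I, f (u R t) :=
      integral_map (hu R).cont.measurable.aemeasurable
        (hf.comp continuous_subtype_val).aestronglyMeasurable
    rw [e1]
    have hrc : Continuous (F37.rh (F37.Mx R)) := by
      unfold F37.rh
      exact (by fun_prop : Continuous fun v : ℝ => (v * (1 - v)) ^ (F37.Mx R)).div_const _
    have hre : Continuous fun v : ℝ => (f v).re := Complex.continuous_re.comp hf
    have him : Continuous fun v : ℝ => (f v).im := Complex.continuous_im.comp hf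
    have hfu : Continuous fun t : I => f (u R t) :=
      hf.comp (continuous_subtype_val.comp (hu R).cont)
    have hi : Integrable (fun t : I => f (u R t)) := by
      obtain ⟨C, hC⟩ := isCompact_univ.exists_bound_of_continuousOn hfu.continuousOn
      exact Integrable.of_bound hfu.aestronglyMeasurable C (ae_of_all _ fun t => hC t trivial)
    have hg : Continuous fun t : ℝ => ((F37.rh (F37.Mx R) t : ℝ) : ℂ) * f t :=
      (Complex.continuous_ofReal.comp hrc).mul hf
    have hg' := hg.intervalIntegrable (μ := volume) 0 1
    apply Complex.ext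
    · have h1 : (∫ t : I, f (u R t)).re = ∫ t : I, (f (u R t)).re :=
        (integral_re (𝕜 := ℂ) hi).symm
      have h2 : (∫ t in (0 : ℝ)..1, ((F37.rh (F37.Mx R) t : ℝ) : ℂ) * f t).re =
          ∫ t in (0 : ℝ)..1, (((F37.rh (F37.Mx R) t : ℝ) : ℂ) * f t).re := by
        rw [intervalIntegral.integral_of_le zero_le_one, intervalIntegral.integral_of_le zero_le_one]
        exact (integral_re (𝕜 := ℂ) hg'.1).symm
      rw [h1, h2, (hu R).law _ hre]
      refine intervalIntegral.integral_congr fun t _ => ?_
      simp only [Complex.re_ofReal_mul]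
      ring
    · have h1 : (∫ t : I, f (u R t)).im = ∫ t : I, (f (u R t)).im :=
        (integral_im (𝕜 := ℂ) hi).symm
      have h2 : (∫ t in (0 : ℝ)..1, ((F37.rh (F37.Mx R) t : ℝ) : ℂ) * f t).im =
          ∫ t in (0 : ℝ)..1, (((F37.rh (F37.Mx R) t : ℝ) : ℂ) * f t).im := by
        rw [intervalIntegral.integral_of_le zero_le_one, intervalIntegral.integral_of_le zero_le_one]
        exact (integral_im (𝕜 := ℂ) hg'.1).symm
      rw [h1, h2, (hu R).law _ him]
      refine intervalIntegral.integral_congr fun t _ => ?_
      simp only [Complex.im_ofReal_mul]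
      ring

theorem meas_um {u : ℕ → I → I} (hu : ∀ R, Continuous (u R)) : Measurable (F37.um u) :=
  measurable_pi_lambda _ fun d => (hu d.1).measurable.comp (measurable_pi_apply d)

theorem Pm_map {u : ℕ → I → I} (hu : ∀ R, Continuous (u R)) :
    (PM Dir).map (F37.um u) = F37.Pm (nuU u) := by
  unfold Pool.BGR.PM F37.Pm nuU
  have h := Measure.infinitePi_map_pi (μ := fun _ : Dir => (volume : Measure I))
    (f := fun d => u d.1) fun d => (hu d.1).measurable
  exact h

theorem Pm_prob {ν : ℕ → Measure I} [h : ∀ R, IsProbabilityMeasure (ν R)] :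
    IsProbabilityMeasure (F37.Pm ν) := by
  unfold F37.Pm
  infer_instance

theorem Pm_prob' {ν : ℕ → Measure I} (h : F37.Law ν) : IsProbabilityMeasure (F37.Pm ν) := by
  have := h.prob
  exact Pm_prob

end Z37
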