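import Pool.Agent.LibBE36M.M1b
import Pool.Agent.LibBE37Z.Z1
import Pool.Agent.LibGD33.Asm2

/-! BE36: the data satisfy the hypotheses of the blocks; the metric of area one. -/

open MeasureTheory Set Filter Topology
open scoped ContDiff unitInterval

namespace Z37

variable [F37.Sq]

open BGS BR B35
open Pool.BGR (PM)

variable {Γ : Type} [Group Γ] [MulAction Γ Pl] {D : Set Pl}

/-- The data of the theorem. -/
noncomputable def Pd (ψ : Pl → ℝ) (L : ℕ) (s : ℝ) : Dt := ⟨B36.mH, ψ, L, fun R => s * F37.cn R⟩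

theorem Z4_cx (hX : Surface Γ D) (hG : B36.Hyp Γ) {L : ℕ} (hL : ∀ z ∈ closure D,
    |z.1| ≤ (L : ℝ) - 1 ∧ |z.2| ≤ (L : ℝ) - 1) {c : ℕ → ℝ} (hc : Cs c) {ψ : Pl → ℝ}
    (hψ : ψ ∈ Test Γ) : BGM.Cx Γ D B36.mH ψ L c := by
  have hm := B36.mH_HM hX hG
  have hrp : BGM.Rp B36.mH := ⟨hm.smooth, hm.pos⟩
  have hiv : BGM.Iv Γ B36.mH := hm.inv
  obtain ⟨k, hk, hk'⟩ := BGM.E2_base hX hrp hiv
  obtain ⟨E, V, F, hE⟩ := BGM.h1_of hX k B36.mH hk hrp hiv fun z => ⟨hk' z, hm.neg z⟩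
  exact ⟨hX, hrp, hiv, ⟨k, E, V, F, hE⟩, hψ, hL, hc, BGM.h1_of hX⟩

theorem Z4_ok (hX : Surface Γ D) (hO : Ori Γ) (hG : B36.Hyp Γ) {L : ℕ}
    (hL : ∀ z ∈ closure D, |z.1| ≤ (L : ℝ) - 1 ∧ |z.2| ≤ (L : ℝ) - 1) {ψ : Pl → ℝ}
    (hψ : ψ ∈ Test Γ) {s : ℝ} (hs : 0 < s) (hs1 : s ≤ 1) : F37.Ok Γ D (Pd ψ L s) where
  cx := Z4_cx hX hG hL (cn_Cs hs hs1) hψ
  ori := hO
  hyp := hG
  hm := B36.mH_HM hX hG
  eq := rfl
  c := ⟨s, hs, hs1, fun _ => rfl⟩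

/-- The metric of area one. -/
theorem X_of {m' : Mt Γ D} {ψ : Pl → ℝ} {L : ℕ} {s q : ℝ} (hq : 0 < q) {ζ : Dir → I}
    (h : ∀ z, m'.1.1 z = (q * Real.exp (ψ z + s * BGM.ps Γ L F37.cn ζ z)) • B36.mH z) :
    m'.1.1 = Dt.X (Pd ψ L s) Γ D ζ := by
  set f : Pl → ℝ := BGM.ex Γ ψ L (fun R => s * F37.cn R) ζ with hf
  have h' : ∀ z, m'.1.1 z = (q * Real.exp (f z)) • B36.mH z := by
    intro z
    rw [h z, hf]
    unfold BGM.ex
    rw [BGM.GM_ps]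
  have harea := m'.2.area
  have e1 : ∀ z, √(dt (m'.1.1 z)) = q * (Real.exp (f z) * √(dt (B36.mH z))) := by
    intro z
    rw [h' z]
    have e2 : dt ((q * Real.exp (f z)) • B36.mH z) = (q * Real.exp (f z)) ^ 2 * dt (B36.mH z) := by
      unfold dt
      simp only [Prod.smul_fst, Prod.smul_snd, smul_eq_mul]
      ring
    rw [e2, Real.sqrt_mul (sq_nonneg _), Real.sqrt_sq (by positivity)]
    ring
  simp only [e1] at harea
  rw [integral_const_mul] at harea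
  set A : ℝ := ∫ w in D, Real.exp (f w) * √(dt (B36.mH w)) with hA
  have hA0 : 0 < A := by
    by_contra hn
    have h3 := mul_nonpos_of_nonneg_of_nonpos hq.le (not_lt.1 hn)
    linarith
  have hqA : q = Real.exp (-Real.log A) := by
    rw [Real.exp_neg, Real.exp_log hA0]
    field_simp
    exact harea
  funext z
  rw [h' z]
  unfold Dt.X Dt.h nx
  show (q * Real.exp (f z)) • B36.mH z = Real.exp (f z - Real.log A) • B36.mH z
  rw [sub_eq_add_neg, Real.exp_add, hqA, mul_comm]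

end Z37
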