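import Pool.Agent.LibBE37Z.WE
import Pool.Agent.LibBE37F.FA5
import Pool.Agent.LibBE37Z.Z2
import Pool.Agent.LibBE37Z.Z3
import Pool.Agent.LibBE37Z.Z4
import Pool.Agent.LibBE33.A4

/-! BE36: Weyl's law, from the inputs F1, F2 of the blocks to the theorem. -/

open MeasureTheory Set Filter Topology
open scoped ContDiff unitInterval

namespace Z37

variable [F37.Sq]

open BGS BR B35
open Pool.BGR (PM)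
open BE33 (Nc)

variable {Γ : Type} [Group Γ] [MulAction Γ Pl] {D : Set Pl}

theorem Bs_mono {P : Dt} {p : F37.Pr} {κ κ' : ℝ} (h0 : 0 ≤ κ) (h : κ ≤ κ') (k : ℕ) :
    F37.Bs P p Γ D κ' k ⊆ F37.Bs P p Γ D κ k := fun ξ hξ =>
  ⟨hξ.1, fun z => (hξ.2 z).trans (neg_le_neg (pow_le_pow_left₀ h0 h 2))⟩

/-- The three standard clauses. -/
theorem frame (hX : Surface Γ D) {L : ℕ} {u : ℕ → I → I} (hu : ∀ R, Continuous (u R)) :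
    (∀ ξ, BGM.ps Γ L F37.cn (F37.um u ξ) ∈ Test Γ) ∧
      (∀ z, Measurable fun ξ => BGM.ps Γ L F37.cn (F37.um u ξ) z) ∧
      (∀ m : Mt Γ D, ∀ U ∈ 𝓝 m, ∃ s₀ : ℝ, 0 < s₀ ∧ ∀ s : ℝ, 0 < s → s ≤ s₀ → ∀ ξ,
        ∃ m' ∈ U, ∃ q : ℝ, 0 < q ∧ ∀ z, m'.1.1 z =
          (q * Real.exp (s * BGM.ps Γ L F37.cn (F37.um u ξ) z)) • m.1.1 z) := by
  refine ⟨fun ξ => BGM.ps_mem hX L cn_Cs' _,
    fun z => (BGM.QML_meas hX L cn_Cs' z).comp (meas_um hu), fun m U hU => ?_⟩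
  obtain ⟨s₀, hs₀, h⟩ := BGM.QML_near hX L cn_Cs' m hU
  exact ⟨s₀, hs₀, fun s hs hs' ξ => h s hs hs' (F37.um u ξ)⟩

/-- Almost every metric: from the law `Pm ν` to the uniform law. -/
theorem ae_um {u : ℕ → I → I} (hu : ∀ R, Continuous (u R)) {p : (Dir → I) → Prop}
    (h : ∀ᵐ ξ ∂F37.Pm (nuU u), p ξ) : ∀ᵐ ξ ∂(PM Dir), p (F37.um u ξ) := by
  rw [← Pm_map hu] at h
  exact ae_of_ae_map (meas_um hu).aemeasurable h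

/-- **Weyl's law.** -/
theorem weyl_ae (hX : Surface Γ D) (hO : Ori Γ) (hG : B36.Hyp Γ) {L₀ : ℕ}
    (hL₀ : ∀ z ∈ closure D, |z.1| ≤ (L₀ : ℝ) - 1 ∧ |z.2| ≤ (L₀ : ℝ) - 1) {u : ℕ → I → I}
    (hu : ∀ R, F37.Qt (F37.Mx R) (u R))
    (hF : ∀ P : Dt, F37.Ok Γ D P → ∀ ν : ℕ → Measure I, F37.Law ν → ∀ κ : ℝ, 0 < κ →
      ∃ p : F37.Pr, p.Ok ∧ ∃ κ1 : ℝ, 0 < κ1 ∧ W37.Sec Γ D P p κ κ1 ν ∧
        ∀ (ξ : Dir → I) (m' : Mt Γ D), m'.1.1 = P.X Γ D ξ →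
          (∀ᶠ k : ℕ in atTop, ξ ∈ F37.Bs P p Γ D κ k) → W37.Tra D P p κ1 ξ m')
    {ψ : Pl → ℝ} (hψ : ψ ∈ Test Γ) {s : ℝ} (hs : 0 < s) (hs1 : s ≤ 1) :
    ∀ᵐ ξ ∂(PM Dir), ∀ m' : Mt Γ D,
      (∃ q : ℝ, 0 < q ∧ ∀ z, m'.1.1 z =
        (q * Real.exp (ψ z + s * BGM.ps Γ L₀ F37.cn (F37.um u ξ) z)) • B36.mH z) →
      ∃ κ2 C : ℝ, 0 < κ2 ∧ 0 < C ∧ ∀ᶠ j : ℕ in atTop, ∀ τ : ℝ, 2 ^ j ≤ τ → τ ≤ 2 * 2 ^ j →
        |Nc (FG33.lam m') τ - τ ^ 2 / (4 * Real.pi)| ≤ C * 2 ^ j / F37.Lm κ2 j := by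
  have hP := Z4_ok hX hO hG hL₀ hψ hs hs1
  have hν := law_of_Qt hu
  have := Pm_prob' hν
  have h0 : ∀ i : ℕ, 0 < 1 / ((i : ℝ) + 1) := fun i => by positivity
  choose p hp κ1 hκ1 hS hT using fun i : ℕ => hF _ hP _ hν (1 / ((i : ℝ) + 1)) (h0 i)
  have h1 := W37.WE_main hX hO (P := Pd ψ L₀ s) (p := p) (ν := nuU u) (κ1 := κ1) hκ1 hS hT
    (fun ξ hξ => by
      obtain ⟨κ, hκ, h⟩ := F37.in_block hP hξ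
      obtain ⟨i, hi⟩ := exists_nat_one_div_lt hκ
      obtain ⟨k0, hk0⟩ := h (p i) (hp i)
      refine ⟨i, ?_⟩
      filter_upwards [eventually_ge_atTop k0] with k hk
      exact Bs_mono (h0 i).le hi.le k (hk0 k hk))
  filter_upwards [ae_um (fun R => (hu R).cont) h1] with ξ hξ m' hm'
  obtain ⟨q, hq, hm'⟩ := hm'
  exact hξ m' (X_of hq hm')

end Z37
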