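import Pool.Agent.LibBE37F.Sm

/-! The final form of the remainder in Weyl's law. -/

open MeasureTheory Set Filter Topology
open scoped ContDiff unitInterval

namespace Z37

/-- The mean with the triangular weight is at most twice the plain mean. -/
theorem plain {f : ℝ → ℝ} (hf : ∀ y, 0 ≤ f y) {T : ℝ} (hT : 0 < T)
    (hi : IntervalIntegrable f volume 0 T) :
    2 / T ^ 2 * ∫ τ in (0 : ℝ)..T, (T - τ) * f τ ≤ 2 * (1 / T * ∫ y in (0 : ℝ)..T, f y) := by
  have h1 : ∫ τ in (0 : ℝ)..T, (T - τ) * f τ ≤ ∫ τ in (0 : ℝ)..T, T * f τ := by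
    refine intervalIntegral.integral_mono_on hT.le ?_ (hi.const_mul T) fun x hx => ?_
    · exact hi.continuousOn_mul (by fun_prop)
    · exact mul_le_mul_of_nonneg_right (by linarith [hx.1]) (hf x)
  rw [intervalIntegral.integral_const_mul] at h1
  calc 2 / T ^ 2 * ∫ τ in (0 : ℝ)..T, (T - τ) * f τ
      ≤ 2 / T ^ 2 * (T * ∫ τ in (0 : ℝ)..T, f τ) := mul_le_mul_of_nonneg_left h1 (by positivity)
    _ = 2 * (1 / T * ∫ y in (0 : ℝ)..T, f y) := by
      field_simp

variable [F37.Sq]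

open F37

theorem Lm_monok {κ : ℝ} (hκ : 0 ≤ κ) : Monotone (Lm κ) := by
  intro a b h
  unfold Lm
  refine Real.rpow_le_rpow (by positivity) ?_ hκ
  have : (bk a : ℝ) ≤ bk b := by exact_mod_cast bk_strict.monotone h
  linarith

theorem wey_fin {N L0 : ℝ → ℝ} {κ1 C : ℝ} (hκ1 : 0 < κ1) (hC : 0 < C) (h0 : Sm L0)
    (h1 : ∀ T, 1 ≤ L0 T)
    (h : ∀ᶠ j : ℕ in atTop, ∀ τ : ℝ, 2 ^ j ≤ τ → τ ≤ 2 * 2 ^ j →
      |N τ - τ ^ 2 / (4 * Real.pi)| ≤ C * 2 ^ j / Lm κ1 j) :
    Tendsto (fun y : ℝ => (N y - y ^ 2 / (4 * Real.pi)) * L0 y / y) atTop (𝓝 0) ∧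
      ∀ w : ℝ → ℝ, (∀ᶠ y in atTop, 0 < w y ∧ w y ≤ 1 ∧ 1 ≤ L0 y * w y) →
        Tendsto (fun y : ℝ => (N (y + w y) - N y) / (y * w y)) atTop (𝓝 (1 / (2 * Real.pi))) := by
  obtain ⟨E, hEd⟩ : ∃ E : ℝ → ℝ, ∀ y, E y = N y - y ^ 2 / (4 * Real.pi) := ⟨_, fun _ => rfl⟩
  have hpi := Real.pi_pos
  have hLp : ∀ (κ : ℝ) (k : ℕ), 0 < Lm κ k := fun κ k => Real.rpow_pos_of_pos (by positivity) _
  have hlim : Tendsto (fun y : ℝ => 2 * C * Lm (-(κ1 / 2)) (FB23.dk y)) atTop (𝓝 0) := by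
    have h2 : Tendsto (fun k : ℕ => Lm (-(κ1 / 2)) k) atTop (𝓝 0) :=
      (sum_bk (show 0 < κ1 / 2 by positivity)).tendsto_atTop_zero
    simpa using (h2.comp FB23.dk_tendsto).const_mul (2 * C)
  -- the bound at `y` and at `y + w`
  have key : ∀ᶠ y : ℝ in atTop, ∀ z : ℝ, y ≤ z → z ≤ y + 1 →
      |E z| * L0 y / y ≤ 2 * C * Lm (-(κ1 / 2)) (FB23.dk y) := by
    obtain ⟨j0, hj0⟩ := eventually_atTop.1 h
    filter_upwards [FB23.dk_tendsto.eventually_ge_atTop j0, L_dk h0 (show 0 < κ1 / 2 by positivity),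
      eventually_ge_atTop (1 : ℝ)] with y hy1 hy2 hy3 z hz1 hz2
    have hz3 : 1 ≤ z := hy3.trans hz1
    have hy0 : 0 < y := by linarith
    have hjz : FB23.dk y ≤ FB23.dk z := by
      unfold FB23.dk
      exact Nat.log_mono_right (Nat.floor_mono hz1)
    have e1 := hj0 (FB23.dk z) (hy1.trans hjz) z (FB23.dk_le hz3) (FB23.dk_lt hz3).le
    rw [← hEd] at e1
    have e2 : (2 : ℝ) ^ FB23.dk z ≤ 2 * y := by
      have := FB23.dk_le hz3
      linarith
    have e3 : Lm κ1 (FB23.dk y) ≤ Lm κ1 (FB23.dk z) := Lm_monok hκ1.le hjz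
    have e4 : |E z| ≤ C * (2 * y) / Lm κ1 (FB23.dk y) :=
      e1.trans (div_le_div₀ (by positivity) (mul_le_mul_of_nonneg_left e2 hC.le) (hLp _ _) e3)
    have e5 : Lm κ1 (FB23.dk y) = Lm (κ1 / 2) (FB23.dk y) * Lm (κ1 / 2) (FB23.dk y) := by
      rw [← Lm_add]
      congr 1
      ring
    have e6 : Lm (-(κ1 / 2)) (FB23.dk y) = 1 / Lm (κ1 / 2) (FB23.dk y) := by
      rw [eq_div_iff (hLp _ _).ne', ← Lm_add, neg_add_cancel]
      unfold Lm
      exact Real.rpow_zero _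
    have hL := hLp (κ1 / 2) (FB23.dk y)
    rw [div_le_iff₀ hy0]
    calc |E z| * L0 y ≤ C * (2 * y) / Lm κ1 (FB23.dk y) * Lm (κ1 / 2) (FB23.dk y) :=
          mul_le_mul e4 hy2 (by linarith [h1 y]) (div_nonneg (by positivity) (hLp _ _).le)
      _ = 2 * C * Lm (-(κ1 / 2)) (FB23.dk y) * y := by
        rw [e5, e6]
        field_simp
  refine ⟨?_, fun w hw => ?_⟩
  · refine squeeze_zero_norm' ?_ hlim
    filter_upwards [key, eventually_ge_atTop (1 : ℝ)] with y hy hy1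
    have h2 := hy y le_rfl (by linarith)
    rw [← hEd, Real.norm_eq_abs, abs_div, abs_mul, abs_of_pos (show 0 < y by linarith),
      abs_of_pos (show 0 < L0 y by linarith [h1 y])]
    exact h2
  · have hlim2 : Tendsto (fun y : ℝ => y⁻¹ + 2 * (2 * C * Lm (-(κ1 / 2)) (FB23.dk y))) atTop
        (𝓝 0) := by
      simpa using tendsto_inv_atTop_zero.add (hlim.const_mul 2)
    rw [tendsto_iff_norm_sub_tendsto_zero]
    refine squeeze_zero' (Eventually.of_forall fun _ => norm_nonneg _) ?_ hlim2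
    filter_upwards [key, hw, eventually_ge_atTop (1 : ℝ)] with y hy hwy hy1
    obtain ⟨hw0, hw1, hwL⟩ := hwy
    have hy0 : 0 < y := by linarith
    have a1 := hy y le_rfl (by linarith)
    have a2 := hy (y + w y) (by linarith) (by linarith)
    have h8 : (N (y + w y) - N y) / (y * w y) - 1 / (2 * Real.pi) =
        w y / (4 * Real.pi * y) + (E (y + w y) - E y) / (y * w y) := by
      rw [hEd, hEd]
      field_simp
      ring
    rw [h8, Real.norm_eq_abs]
    refine (abs_add_le _ _).trans ?_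
    have h9 : |w y / (4 * Real.pi * y)| ≤ y⁻¹ := by
      rw [abs_of_pos (by positivity), div_le_iff₀ (by positivity)]
      have hpi3 := Real.pi_gt_three
      have h10 : y⁻¹ * (4 * Real.pi * y) = 4 * Real.pi := by
        field_simp
      rw [h10]
      linarith
    have hdiv : ∀ x : ℝ, 0 ≤ x → x / (y * w y) ≤ x * L0 y / y := by
      intro x hx
      rw [div_le_div_iff₀ (by positivity) hy0]
      have : x * y * 1 ≤ x * y * (L0 y * w y) :=
        mul_le_mul_of_nonneg_left hwL (by positivity)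
      linarith
    have h11 : |(E (y + w y) - E y) / (y * w y)| ≤
        2 * (2 * C * Lm (-(κ1 / 2)) (FB23.dk y)) := by
      rw [abs_div, abs_of_pos (show 0 < y * w y by positivity)]
      have h12 : |E (y + w y) - E y| ≤ |E (y + w y)| + |E y| := abs_sub _ _
      have h13 : |E (y + w y) - E y| / (y * w y) ≤ (|E (y + w y)| + |E y|) / (y * w y) :=
        div_le_div_of_nonneg_right h12 (by positivity)
      rw [add_div] at h13
      have h14 := hdiv _ (abs_nonneg (E (y + w y)))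
      have h15 := hdiv _ (abs_nonneg (E y))
      linarith
    exact add_le_add h9 h11

end Z37
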