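import Pool.Agent.LibBE37Z.Z7
import Pool.Agent.LibBE37Z.Z9
import Pool.Agent.LibBE37N.E5
import Pool.Agent.LibBE37F.SqL
import Pool.Agent.LibBE37F.Fin1
import Pool.Agent.LibU36.C9

/-! The main theorem: the spectrum of almost every metric of negative curvature, up to a given
function `L0 (T) = T ^ o(1)`. -/

open MeasureTheory Set Filter Topology
open scoped ContDiff unitInterval

namespace Z37

open BGS BR
open B35 (Dt)
open Pool.BGR (PM)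
open BE33 (Nc)

/-- The conclusions of the main theorem, for the function `L0`. -/
structure All (L0 : ℝ → ℝ) {Γ : Type} [Group Γ] [MulAction Γ Pl] {D : Set Pl} (m' : Mt Γ D) :
    Prop where
  win : ∀ L : ℝ → ℝ, Tendsto L atTop atTop → (∀ᶠ T in atTop, L T ≤ L0 T) → FG33.GOEWindows m' L
  wey : Tendsto (fun y : ℝ => (Nc (FG33.lam m') y - y ^ 2 / (4 * Real.pi)) * L0 y / y) atTop (𝓝 0)
  sho : ∀ w : ℝ → ℝ, (∀ᶠ y in atTop, 0 < w y ∧ w y ≤ 1 ∧ 1 ≤ L0 y * w y) →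
    Tendsto (fun y : ℝ => (Nc (FG33.lam m') (y + w y) - Nc (FG33.lam m') y) / (y * w y)) atTop
      (𝓝 (1 / (2 * Real.pi)))
  num : ∃ L₁ : ℝ, ∀ᶠ T : ℝ in atTop, ∀ L : ℝ, L₁ ≤ L → L ≤ L0 T →
    Real.log (L0 T) ≤ EM73.numVar m' T (1 / L)
  squ : ∀ᶠ T : ℝ in atTop, Real.log (L0 T) ≤
    1 / T * ∫ y in (0 : ℝ)..T, (Nc (FG33.lam m') y - y ^ 2 / (4 * Real.pi)) ^ 2
  ome : ∃ᶠ y : ℝ in atTop, √(Real.log (L0 y)) ≤
    |Nc (FG33.lam m') y - y ^ 2 / (4 * Real.pi)|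

theorem all_push {L0 : ℝ → ℝ} {Γ : Type} [Group Γ] [MulAction Γ Pl] {D : Set Pl} {e : Pl ≃ Pl}
    (hX : Surface Γ D) (he : U36.Df e) (m : Mt Γ D) (h : All L0 (U36.push hX he m)) :
    All L0 m := by
  have e1 : FG33.lam (U36.push hX he m) = FG33.lam m := funext fun k => U36.lam_push hX he m k
  obtain ⟨h1, h2, h3, h4, h5, h6⟩ := h
  rw [e1] at h2 h3 h5 h6
  refine ⟨fun L hL hL' => U36.goe_push hX he m (h1 L hL hL'), h2, h3, ?_, h5, h6⟩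
  unfold EM73.numVar at h4 ⊢
  rwa [e1] at h4

theorem Nc_sub {κ : ℕ → ℝ} (hf : ∀ y, ({k | κ k ≤ y} : Set ℕ).Finite) {y h : ℝ} (hh : 0 ≤ h) :
    ((({k | y < κ k ∧ κ k ≤ y + h} : Set ℕ).ncard : ℝ)) = Nc κ (y + h) - Nc κ y := by
  have e : ({k | y < κ k ∧ κ k ≤ y + h} : Set ℕ) = {k | κ k ≤ y + h} \ {k | κ k ≤ y} := by
    ext k
    simp only [mem_ofPred_eq, Set.mem_sdiff, not_le]
    exact and_comm
  have hsub : ({k | κ k ≤ y} : Set ℕ) ⊆ {k | κ k ≤ y + h} := by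
    intro k hk
    have hk' : κ k ≤ y := hk
    show κ k ≤ y + h
    linarith
  have h7 := Set.ncard_sdiff_add_ncard_of_subset hsub (hf _)
  unfold Nc
  rw [e, ← h7]
  push_cast
  ring

theorem R_int {Γ : Type} [Group Γ] [MulAction Γ Pl] {D : Set Pl} (hX : Surface Γ D) (m' : Mt Γ D)
    (T : ℝ) : IntervalIntegrable (fun y => (Nc (FG33.lam m') y - y ^ 2 / (4 * Real.pi)) ^ 2)
      volume 0 T := by
  have hf := BE33.Fin_fin hX m'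
  have hm : Monotone (Nc (FG33.lam m')) := by
    intro x y h
    unfold Nc
    exact_mod_cast Set.ncard_le_ncard (fun k hk => le_trans hk h) (hf y)
  have h0 : ∀ y, 0 ≤ Nc (FG33.lam m') y := by
    intro y
    unfold Nc
    positivity
  have hm2 : Monotone fun y => Nc (FG33.lam m') y ^ 2 := fun x y h =>
    pow_le_pow_left₀ (h0 x) (hm h) 2
  have e : (fun y => (Nc (FG33.lam m') y - y ^ 2 / (4 * Real.pi)) ^ 2) = fun y =>
      Nc (FG33.lam m') y ^ 2 - Nc (FG33.lam m') y * (2 * (y ^ 2 / (4 * Real.pi))) +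
        (y ^ 2 / (4 * Real.pi)) ^ 2 := by
    ext y
    ring
  rw [e]
  refine (hm2.intervalIntegrable.sub ?_).add ?_
  · exact hm.intervalIntegrable.mul_continuousOn (by fun_prop)
  · exact Continuous.intervalIntegrable (by fun_prop) _ _

/-- The theorem for the groups of isometries of the hyperbolic plane, with a scale `Sq`. -/
theorem main [F37.Sq] {L0 : ℝ → ℝ} (h0 : F37.Sm L0) (h1 : ∀ T, 1 ≤ L0 T) {Γ : Type} [Group Γ]
    [MulAction Γ Pl] {D : Set Pl} (hX : Surface Γ D) (hO : Ori Γ) (hG : B36.Hyp Γ) :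
    ∃ φ : (ℕ × (ℤ × ℤ) → I) → Pl → ℝ, U36.Fld Γ φ ∧ (∀ z, Measurable fun ξ => φ ξ z) ∧
      ∀ ψ ∈ Test Γ, ∀ s : ℝ, 0 < s → s ≤ 1 →
        ∀ᵐ ξ ∂(Measure.infinitePi fun _ : ℕ × (ℤ × ℤ) => (volume : Measure I)), ∀ m' : Mt Γ D,
          (∃ q : ℝ, 0 < q ∧ ∀ z, m'.1.1 z =
            (q * Real.exp (ψ z + s * φ ξ z)) • B36.mH z) → All L0 m' := by
  obtain ⟨L, hL⟩ := BGM.GM_dom hX
  obtain ⟨u, hu⟩ := exists_u
  obtain ⟨g1, g2, g3⟩ := frame hX (L := L) (fun R => (hu R).cont)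
  refine ⟨fun ξ => BGM.ps Γ L F37.cn (F37.um u ξ), ⟨g1, fun r K hK => ?_⟩, g2,
    fun ψ hψ s hs hs1 => ?_⟩
  · obtain ⟨C, hC, h⟩ := BGM.QML_deriv hX L cn_Cs' r hK
    exact ⟨C, hC, fun ξ j hj z hz => h (F37.um u ξ) j hj z hz⟩
  · have hP := Z4_ok hX hO hG hL hψ hs hs1
    have hν := law_of_Qt hu
    have h4 := ae_um (fun R => (hu R).cont) (F37.ae_all hP hν h0)
    have h5 := ae_um (fun R => (hu R).cont) (N37.low_ae hP hν h0)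
    have h6 := weyl_ae hX hO hG hL hu (inp Γ D) hψ hs hs1
    filter_upwards [h4, h5, h6] with ξ e4 e5 e6 m' hm'
    obtain ⟨κ2, C, hκ2, hC, e7⟩ := e6 m' hm'
    obtain ⟨q, hq, hm'⟩ := hm'
    have e8 := X_of hq hm'
    obtain ⟨a1, a2, a3⟩ := e5 m' e8
    obtain ⟨b1, b2⟩ := wey_fin hκ2 hC h0 h1 e7
    refine ⟨e4 m' e8, b1, b2, a1, ?_, a3⟩
    filter_upwards [a2, eventually_gt_atTop (0 : ℝ)] with T h7 h9
    have h10 := plain (fun y => sq_nonneg (Nc (FG33.lam m') y - y ^ 2 / (4 * Real.pi))) h9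
      (R_int hX m' T)
    unfold FE35.tmean at h7
    linarith

/-- **The main theorem.** -/
theorem every {L0 : ℝ → ℝ} (h1 : ∀ T, 1 ≤ L0 T)
    (h2 : ∀ c : ℝ, 0 < c → ∀ᶠ T in atTop, L0 T ≤ T ^ c)
    {Γ : Type} [Group Γ] [MulAction Γ Pl] {D : Set Pl} (hX : Surface Γ D) (hO : Ori Γ)
    (m₀ : Mt Γ D) :
    ∃ φ : (ℕ × (ℤ × ℤ) → I) → Pl → ℝ,
      (∀ ξ, φ ξ ∈ Test Γ) ∧ (∀ z, Measurable fun ξ => φ ξ z) ∧
      (∀ m : Mt Γ D, ∀ U ∈ 𝓝 m, ∃ s₀ : ℝ, 0 < s₀ ∧ ∀ s : ℝ, 0 < s → s ≤ s₀ → ∀ ξ,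
        ∃ m' ∈ U, ∃ q : ℝ, 0 < q ∧ ∀ z, m'.1.1 z = (q * Real.exp (s * φ ξ z)) • m.1.1 z) ∧
      ∀ ψ ∈ Test Γ, ∀ s : ℝ, 0 < s → s ≤ 1 →
        ∀ᵐ ξ ∂(Measure.infinitePi fun _ : ℕ × (ℤ × ℤ) => (volume : Measure I)), ∀ m' : Mt Γ D,
          (∃ q : ℝ, 0 < q ∧ ∀ z, m'.1.1 z = (q * Real.exp (ψ z + s * φ ξ z)) • m₀.1.1 z) →
            All L0 m' := by
  obtain ⟨S, hS⟩ := F37.exists_Sq (Eventually.of_forall fun T => lt_of_lt_of_le one_pos (h1 T)) h2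
  refine U36.transfer _ (fun Γ _ _ D m => All L0 m) ?_ ?_ hX hO m₀
  · intro Γ _ _ D e hX he m h
    exact all_push hX he m h
  · intro Γ _ _ D hX hO hG
    exact main (h0 := hS) h1 hX hO hG

end Z37
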